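import Mathlib

/-!
# Squared primorials plus one are not always squarefree

The product of the first nine primes is `P_9 = 223092870`, and `29 ^ 2` divides `P_9 ^ 2 + 1`.
-/

set_option autoImplicit false

namespace Pool.Agent.Results.MP_80b119_nt.NotSquarefree

open Finset

lemma nth_eq {p k : ℕ} (hp : p.Prime) (hk : Nat.count Nat.Prime p = k) :
    Nat.nth Nat.Prime k = p := by
  rw [← hk]
  exact Nat.nth_count hp

/-- `29 ^ 2` divides `P_9 ^ 2 + 1`, where `P_n` is the product of the first `n` primes; hence it is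
not true that `P_n ^ 2 + 1` is squarefree for every `n`. -/
theorem result :
    (29 ^ 2 ∣ (∏ k ∈ range 9, Nat.nth Nat.Prime k) ^ 2 + 1) ∧
    ¬ ∀ n : ℕ, Squarefree ((∏ k ∈ range n, Nat.nth Nat.Prime k) ^ 2 + 1) := by
  have h0 : Nat.nth Nat.Prime 0 = 2 := nth_eq (by norm_num) (by decide)
  have h1 : Nat.nth Nat.Prime 1 = 3 := nth_eq (by norm_num) (by decide)
  have h2 : Nat.nth Nat.Prime 2 = 5 := nth_eq (by norm_num) (by decide)
  have h3 : Nat.nth Nat.Prime 3 = 7 := nth_eq (by norm_num) (by decide)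
  have h4 : Nat.nth Nat.Prime 4 = 11 := nth_eq (by norm_num) (by decide)
  have h5 : Nat.nth Nat.Prime 5 = 13 := nth_eq (by norm_num) (by decide)
  have h6 : Nat.nth Nat.Prime 6 = 17 := nth_eq (by norm_num) (by decide)
  have h7 : Nat.nth Nat.Prime 7 = 19 := nth_eq (by norm_num) (by decide)
  have h8 : Nat.nth Nat.Prime 8 = 23 := nth_eq (by norm_num) (by decide)
  have hd : 29 ^ 2 ∣ (∏ k ∈ range 9, Nat.nth Nat.Prime k) ^ 2 + 1 := by
    simp only [prod_range_succ, prod_range_zero, h0, h1, h2, h3, h4, h5, h6, h7, h8]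
    norm_num
  refine ⟨hd, fun h => ?_⟩
  have h9 := h 9 29 (by rw [← sq]; exact hd)
  rw [Nat.isUnit_iff] at h9
  norm_num at h9

end Pool.Agent.Results.MP_80b119_nt.NotSquarefree
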